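import Pool.Agent.H47.KS.Targets

/-! # Row LKA: large gap, vertices of `I` against `K` -/

set_option autoImplicit false

open Finset

namespace Pool.Agent.H11.KSU

open Pool.Agent.H47.KS Pool.Agent.H37.SP

theorem pf_LKA (hLGD : T_LGD) (hLCK : T_LCK) (hHOP : T_HOP) : T_LKA := by
  intro P N G C K I wK wI hok hB hgap hR1
  have hnu := hok.nu1
  have hn : P.n = 8 * P.nu := rfl
  have hu : P.u = (3 * P.n + 2) * P.E := rfl
  have hkN := hok.kN
  have hN1 := hok.N1
  obtain ⟨X, hX, hXc⟩ := Finset.exists_subset_card_eq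
    (show P.n ≤ C.card by rw [hB.cC]; omega)
  obtain ⟨i, j, hij, hi, hj, hgi, hgj⟩ := hLGD P N G C K I X wK wI hok hB hgap hR1 hX hXc
  have h1 : 2 * (i + j + 1) * P.E ≤ P.u := by
    rw [hu]
    exact Nat.mul_le_mul_right _ (by omega)
  obtain ⟨A', hA', hcard, s, hs, hs2⟩ := hHOP N G K I (dg G X) i j P.E P.u (by omega)
    (by rw [hB.cI]; omega) (by omega) (by rw [hB.cI]; omega) (by omega) h1
    (by rw [hB.cK]; omega)
    (fun F hF hFc => hLCK P N G C K I X wK wI i hok hB hX hXc hi (by omega) hgi F hF hFc)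
    (fun F hF hFc => hLCK P N G C K I X wK wI j hok hB hX hXc (by omega) hj hgj F hF hFc)
  refine ⟨A', hA', ?_, s, hs, hs2⟩
  rw [hB.cK] at hcard
  exact hcard

end Pool.Agent.H11.KSU
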